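import Mathlib
import Pool.Agent.Lib.MP_291b24_nt.Limit

set_option autoImplicit false

open Complex Filter Topology Pool.Agent.MP_291b24_nt

namespace Pool.Agent.Results.MP_291b24_nt.Disproof

lemma tendsto_deviation {σ t : ℝ} (hσ1 : 1 / 5 < σ) (hσ2 : σ < 1 / 4) (ht : 1 ≤ t)
    (hz : ∀ n : ℕ, Odd n → Squarefree n → ∀ s : ℂ, s.re = 1 / 2 + σ → Lchi n s ≠ 0) (N : ℕ) :
    Tendsto (fun η : ℝ => S N (-σ - t * I) (-(-σ - t * I) + η) - M1 N (-σ - t * I) (-(-σ - t * I) + η)
      - M2 N (-σ - t * I) (-(-σ - t * I) + η)) (𝓝[>] 0) (𝓝 (E0 N σ t)) := by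
  set α : ℂ := -σ - t * I with hα
  have hαre : α.re = -σ := by rw [hα]; simp
  have hαim : α.im = -t := by rw [hα]; simp
  have hη : Tendsto (fun η : ℝ => (η : ℂ)) (𝓝[>] 0) (𝓝 0) := by
    have hc : Continuous (fun η : ℝ => (η : ℂ)) := by fun_prop
    have := hc.tendsto 0
    simp only [ofReal_zero] at this
    exact this.mono_left nhdsWithin_le_nhds
  -- the sum S
  have hS : Tendsto (fun η : ℝ => S N α (-α + η)) (𝓝[>] 0)
      (𝓝 ((Real.pi : ℂ) ^ α * ∑ n ∈ (Finset.Icc 1 N).filter (fun n => Odd n ∧ Squarefree n),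
      (if n % 4 = 1 then Ge α else Go α) * (n : ℂ) ^ (-α))) := by
    simp only [S, Nat.floor_natCast]
    rw [Finset.mul_sum]
    refine tendsto_finsetSum _ fun n hn => ?_
    rw [Finset.mem_filter] at hn
    obtain ⟨_, hodd, hsq⟩ := hn
    have hne : Lchi n (1 / 2 - α) ≠ 0 := by
      apply hz n hodd hsq
      rw [sub_re, hαre]; norm_num
    have hs1 : (1 / 2 - α : ℂ) ≠ 1 := by
      intro h
      have := congrArg Complex.im h
      rw [sub_im, hαim] at this
      norm_num at this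
      linarith
    have hcont : ContinuousAt (Lchi n) (1 / 2 - α) := (differentiableAt_Lchi hsq hs1).continuousAt
    have harg : Tendsto (fun η : ℝ => (1 / 2 + (-α + η) : ℂ)) (𝓝[>] 0) (𝓝 (1 / 2 - α)) := by
      have := (hη.const_add (-α)).const_add (1 / 2 : ℂ)
      rw [add_zero] at this
      exact this
    have h1 := (hcont.tendsto.comp harg).inv₀ hne
    have h2 := h1.const_mul (Lchi n (1 / 2 + α))
    have h3 : Lchi n (1 / 2 + α) * (Lchi n (1 / 2 - α))⁻¹ =
        (Real.pi : ℂ) ^ α * ((if n % 4 = 1 then Ge α else Go α) * (n : ℂ) ^ (-α)) := by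
      rw [Lchi_func_eq n hodd hsq α (by rw [hαre]; linarith) (by rw [hαre]; linarith),
        mul_inv_cancel_right₀ hne]
      ring
    rw [← h3]
    exact h2
  -- the first main term tends to 0
  have hM1 : Tendsto (fun η : ℝ => M1 N α (-α + η)) (𝓝[>] 0) (𝓝 0) := by
    obtain ⟨L, hL⟩ := exists_tendsto_PD (α := α) (by rw [hαre]; linarith) (by rw [hαre]; linarith)
    have h1 := ((hL.const_mul (2 * (N : ℂ) * riemannZeta (1 + 2 * α))).mul tendsto_inv_zeta).div_const
      (3 * riemannZeta 2)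
    rw [mul_zero, zero_div] at h1
    refine h1.congr fun η => ?_
    have e : (1 + α + (-α + η) : ℂ) = 1 + η := by ring
    rw [M1, e]
    push_cast
    rw [div_mul_eq_div_div, div_eq_mul_inv (_ / _)]
    ring
  -- the second main term
  have hz1 : riemannZeta (1 - 2 * α) ≠ 0 := by
    apply riemannZeta_ne_zero_of_one_le_re
    simp [hαre]
    linarith
  have hM2 : Tendsto (fun η : ℝ => M2 N α (-α + η)) (𝓝[>] 0)
      (𝓝 ((Real.pi : ℂ) ^ α * (N : ℂ) ^ (1 - α) * (Ge α + Go α) / (3 * (1 - α) * riemannZeta 2))) := by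
    have hP := tendsto_PD_one (α := α) (by rw [hαre]; linarith) (by rw [hαre]; linarith)
    have hs1 : (1 - 2 * α : ℂ) ≠ 1 := by
      intro h
      have := congrArg Complex.re h
      simp [hαre] at this
      linarith
    have hcont : ContinuousAt riemannZeta (1 - 2 * α) := (differentiableAt_riemannZeta hs1).continuousAt
    have harg : Tendsto (fun η : ℝ => (1 + (-α + η) - α : ℂ)) (𝓝[>] 0) (𝓝 (1 - 2 * α)) := by
      have := hη.const_add (1 - 2 * α)
      rw [add_zero] at this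
      refine this.congr fun η => ?_
      ring
    have hα1 : (1 - α) ≠ 0 := by
      intro h
      have := congrArg Complex.re h
      simp [hαre] at this
      linarith
    have hz2 : riemannZeta 2 ≠ 0 := riemannZeta_ne_zero_of_one_le_re (by norm_num)
    have h1 := (hP.const_mul ((Real.pi : ℂ) ^ α * (N : ℂ) ^ (1 - α) * riemannZeta (1 - 2 * α))).div
      ((hcont.tendsto.comp harg).const_mul (3 * (1 - α) * riemannZeta 2))
      (mul_ne_zero (mul_ne_zero (mul_ne_zero (by norm_num) hα1) hz2) hz1)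
    have h2 := h1.mul_const (Ge α + Go α)
    have h3 : (Real.pi : ℂ) ^ α * (N : ℂ) ^ (1 - α) * riemannZeta (1 - 2 * α) * 1 /
        (3 * (1 - α) * riemannZeta 2 * riemannZeta (1 - 2 * α)) * (Ge α + Go α) =
        (Real.pi : ℂ) ^ α * (N : ℂ) ^ (1 - α) * (Ge α + Go α) / (3 * (1 - α) * riemannZeta 2) := by
      revert hz1
      generalize riemannZeta (1 - 2 * α) = z
      intro hz1
      field_simp
    rw [← h3]
    refine h2.congr fun η => ?_
    simp only [M2, Pi.div_apply, Function.comp_apply]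
    push_cast
    rfl
  have := (hS.sub hM1).sub hM2
  rw [sub_zero] at this
  exact this

/-- The conjectured uniform bound fails for every `0 < ε ≤ 1/10` and all `c, C > 0`: for every `K`
there are `X` and `α, β` in the stated range, with all denominators nonzero, where the deviation
exceeds `K X^{1/2+ε}`. -/
theorem result (ε c C K : ℝ) (hε0 : 0 < ε) (hε1 : ε ≤ 1 / 10) (hc : 0 < c) (hC : 0 < C) :
    ∃ X : ℝ, 2 ≤ X ∧ ∃ α β : ℂ,
      (-(1 / 4) < α.re ∧ α.re < 1 / 4) ∧
      (c / Real.log X ≤ β.re ∧ β.re < 1 / 4) ∧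
      |α.im| ≤ C * X ^ (1 - ε) ∧ |β.im| ≤ C * X ^ (1 - ε) ∧
      α ≠ 0 ∧ α + β ≠ 0 ∧
      (∀ n : ℕ, (n : ℝ) ≤ X → Odd n → Squarefree n → Lchi n (1 / 2 + β) ≠ 0) ∧
      K * X ^ (1 / 2 + ε) < ‖S X α β - M1 X α β - M2 X α β‖ := by
  obtain ⟨σ, hσ1, hσ2, hz⟩ := exists_sigma
  have hσ0 : 0 < σ := by linarith
  obtain ⟨N, t, hN, ht1, htN, hE⟩ := core hσ1.le hσ2 |K| C hC (⌈Real.exp (c / σ)⌉₊ + 2)
  have hN2 : 2 ≤ N := by omega
  have hN2R : (2 : ℝ) ≤ N := by exact_mod_cast hN2
  have hN1R : (1 : ℝ) ≤ N := by linarith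
  have hN0R : (0 : ℝ) < N := by linarith
  have hexp : Real.exp (c / σ) ≤ N := by
    calc Real.exp (c / σ) ≤ ⌈Real.exp (c / σ)⌉₊ := Nat.le_ceil _
      _ ≤ N := by exact_mod_cast (by omega : ⌈Real.exp (c / σ)⌉₊ ≤ N)
  have hlog : c / σ ≤ Real.log N := by
    rw [← Real.log_exp (c / σ)]
    exact Real.log_le_log (Real.exp_pos _) hexp
  have hlog0 : 0 < Real.log N := lt_of_lt_of_le (by positivity) hlog
  have hlim := tendsto_deviation hσ1 hσ2 ht1 hz N
  have ev1 := (hlim.norm).eventually (lt_mem_nhds hE)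
  have ev2 : ∀ᶠ η : ℝ in 𝓝[>] 0, η < 1 / 4 - σ := by
    have : ∀ᶠ η : ℝ in 𝓝 0, η < 1 / 4 - σ := eventually_lt_nhds (by linarith)
    exact this.filter_mono nhdsWithin_le_nhds
  have ev3 : ∀ᶠ η : ℝ in 𝓝[>] 0, ∀ n ∈ Finset.Icc 1 N, Odd n → Squarefree n →
      Lchi n (1 / 2 + (-(-σ - t * I) + η)) ≠ 0 := by
    rw [Finset.eventually_all]
    intro n _
    by_cases hodd : Odd n
    · by_cases hsq : Squarefree n
      · have hs1 : (1 / 2 + -(-σ - t * I) : ℂ) ≠ 1 := by
          intro h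
          have := congrArg Complex.im h
          simp at this
          linarith
        have hne : Lchi n (1 / 2 + -(-σ - t * I)) ≠ 0 := by
          apply hz n hodd hsq
          simp
        have hcont : ContinuousAt (Lchi n) (1 / 2 + -(-σ - t * I)) :=
          (differentiableAt_Lchi hsq hs1).continuousAt
        have harg : Tendsto (fun η : ℝ => (1 / 2 + (-(-σ - t * I) + η) : ℂ)) (𝓝[>] 0)
            (𝓝 (1 / 2 + -(-σ - t * I))) := by
          have hc : Continuous (fun η : ℝ => (1 / 2 + (-(-σ - t * I) + η) : ℂ)) := by fun_prop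
          have := hc.tendsto 0
          simp only [ofReal_zero, add_zero] at this
          exact this.mono_left nhdsWithin_le_nhds
        filter_upwards [(hcont.tendsto.comp harg).eventually_ne hne] with η h _ _
        exact h
      · exact Eventually.of_forall fun η _ h => absurd h hsq
    · exact Eventually.of_forall fun η h => absurd h hodd
  obtain ⟨η, ⟨⟨h1, h2⟩, h3⟩, h4⟩ := (((ev1.and ev2).and ev3).and self_mem_nhdsWithin).exists
  have hη0 : (0 : ℝ) < η := h4
  have hexp1 : (N : ℝ) ^ (9 / 10 : ℝ) ≤ (N : ℝ) ^ (1 - ε) :=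
    Real.rpow_le_rpow_of_exponent_le hN1R (by linarith)
  have him : t ≤ C * (N : ℝ) ^ (1 - ε) := by
    have : C * (N : ℝ) ^ (9 / 10 : ℝ) ≤ C * (N : ℝ) ^ (1 - ε) := by gcongr
    linarith
  refine ⟨N, hN2R, -σ - t * I, -(-σ - t * I) + η, ⟨?_, ?_⟩, ⟨?_, ?_⟩, ?_, ?_, ?_, ?_, ?_, ?_⟩
  · simp; linarith
  · simp; linarith
  · simp only [add_re, neg_re, sub_re, ofReal_re, mul_re, I_re, mul_zero, ofReal_im, I_im, mul_one,
      sub_self, sub_zero, neg_neg]
    rw [div_le_iff₀ hlog0]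
    rw [div_le_iff₀ hσ0] at hlog
    nlinarith
  · simp; linarith
  · simp only [sub_im, neg_im, ofReal_im, mul_im, I_re, mul_zero, ofReal_re, I_im, mul_one, neg_zero,
      add_zero, zero_sub, abs_neg]
    rw [abs_of_pos (by linarith)]
    exact him
  · simp only [add_im, neg_im, sub_im, ofReal_im, mul_im, I_re, mul_zero, ofReal_re, I_im, mul_one,
      neg_zero, add_zero, zero_sub, neg_neg]
    rw [abs_of_pos (by linarith)]
    exact him
  · intro h
    have := congrArg Complex.re h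
    simp at this
    linarith
  · intro h
    have := congrArg Complex.re h
    simp at this
    linarith
  · intro n hn hodd hsq
    have hnN : n ≤ N := by exact_mod_cast hn
    have hn1 : 1 ≤ n := Nat.pos_of_ne_zero hsq.ne_zero
    exact h3 n (Finset.mem_Icc.2 ⟨hn1, hnN⟩) hodd hsq
  · refine lt_of_le_of_lt ?_ h1
    have hexp2 : (N : ℝ) ^ (1 / 2 + ε) ≤ (N : ℝ) ^ (3 / 5 : ℝ) :=
      Real.rpow_le_rpow_of_exponent_le hN1R (by linarith)
    calc K * (N : ℝ) ^ (1 / 2 + ε) ≤ |K| * (N : ℝ) ^ (1 / 2 + ε) := by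
          gcongr
          exact le_abs_self K
      _ ≤ |K| * (N : ℝ) ^ (3 / 5 : ℝ) := by gcongr

end Pool.Agent.Results.MP_291b24_nt.Disproof
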