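import Pool.Agent.Lib.MP_291b24_nt.Sm.Main

set_option autoImplicit false

open Complex Pool.Agent.MP_291b24_nt

namespace Pool.Agent.Results.MP_291b24_nt.SmallShifts

/-- Under the generalized Riemann hypothesis for the characters of the problem, the conjectured bound fails for small shifts:
for all `0 < r < a < 1/4`, every `ε < a - r` and every `θ > 0` there are, for arbitrarily large `X`, shifts with `Re α = -a`, `Re β = r` and
`|Im α|, |Im β| ≤ C X^θ` for which the deviation exceeds `K X^{1/2+ε}`. -/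
theorem result (hGRH : ∀ n : ℕ, Odd n → Squarefree n → ∀ s : ℂ, 1 / 2 < s.re → s.re < 1 → Lchi n s ≠ 0)
    (r a ε θ c C K X₀ : ℝ) (hr : 0 < r) (hra : r < a) (ha : a < 1 / 4) (hε : ε < a - r) (hθ : 0 < θ) (hC : 0 < C) :
    ∃ X : ℝ, 2 ≤ X ∧ X₀ ≤ X ∧ ∃ α β : ℂ, α.re = -a ∧ β.re = r ∧ c / Real.log X ≤ β.re ∧
      |α.im| ≤ C * X ^ θ ∧ |β.im| ≤ C * X ^ θ ∧
      K * X ^ (1 / 2 + ε) < ‖S X α β - M1 X α β - M2 X α β‖ := by
  obtain ⟨X, hX2, hX0, α, β, hα, hβ, h1, h2, h3⟩ :=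
    Sm.small_shifts hGRH (ε := ε) K (max X₀ (Real.exp (c / r))) hr hra ha hε hθ hC
  refine ⟨X, hX2, (le_max_left _ _).trans hX0, α, β, hα, hβ, ?_, h1, h2, h3⟩
  have hlog0 : 0 < Real.log X := Real.log_pos (by linarith)
  have hexp : Real.exp (c / r) ≤ X := (le_max_right _ _).trans hX0
  have hlog : c / r ≤ Real.log X := by
    rw [← Real.log_exp (c / r)]
    exact Real.log_le_log (Real.exp_pos _) hexp
  rw [hβ, div_le_iff₀ hlog0]
  rw [div_le_iff₀ hr] at hlog
  linarith [mul_comm (Real.log X) r]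

end Pool.Agent.Results.MP_291b24_nt.SmallShifts
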